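import Pool.Agent.K9h67.DS.Irr

/-!
# The theorem of Deligne and Serre in any rank

Deligne and Serre attached two-dimensional complex Galois representations to newforms of weight one,
starting from representations modulo `ℓ` for infinitely many `ℓ` and a bound for the mean square of the
Hecke eigenvalues.  We prove the corresponding existence theorem for systems of Hecke polynomials of
any degree `n` over any number field `K`.

Let `E` be a number field and `P v` (`v` a prime of `K` outside a finite set `S`) polynomials with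
coefficients in `𝓞 E`, with trace `a v = -(coefficient of X ^ (n - 1))`.  Suppose that for
infinitely many primes `ℓ` there is a semisimple representation of `Gal(K̄ / K)` of dimension `n` in
characteristic `ℓ`, unramified at the primes `v ∤ ℓ` outside `S`, where geometric Frobenius has
characteristic polynomial `P v` modulo (a prime above) `ℓ`.

(1) If for these `ℓ` the reductions of the `a v` take at most `q` values outside a set of primes of
lower density at most `η`, where `n² η < 1`, then for every embedding of `E` into an algebraically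
closed field `Ω` (for instance the algebraic closure of `ℚ_p`, for every prime `p`) there is a semisimple
representation of `Gal(K̄ / K)` over `Ω` with finite image, unramified at all primes outside `S` (also
those above `p`), where geometric Frobenius has characteristic polynomial `P v`; the order of its image
is at most `q ^ (n²) / (1 - n² η)`.

(2) The same conclusion (with some bound for the image) holds if all conjugates of the `a v` are bounded
in mean square.

(3) If the mean square of the `a v` under one embedding is less than `2`, these representations are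
irreducible.
-/

set_option autoImplicit false

namespace Pool.Agent.Results.MP_ef641d_nt.DeligneSerreAnyRank

open NumberField IsDedekindDomain Filter Polynomial

/-- the absolute Galois group of `K` with the Krull topology -/
abbrev GK (K : Type) [Field K] : Type := Gal(AlgebraicClosure K/K)

section defs

variable {K : Type} [Field K] [NumberField K]

/-- `σ` is an (arithmetic) Frobenius element at `v`: there is a maximal ideal `Q` above `v` of the ring
of all algebraic integers with `σ x ≡ x ^ N(v)` modulo `Q` for all `x` -/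
def IsFrob (v : HeightOneSpectrum (𝓞 K)) (σ : GK K) : Prop :=
  ∃ Q : Ideal (𝓞 (AlgebraicClosure K)), Q.IsMaximal ∧
    Q.comap (algebraMap (𝓞 K) (𝓞 (AlgebraicClosure K))) = v.asIdeal ∧
    ∀ x : 𝓞 (AlgebraicClosure K), σ • x - x ^ Ideal.absNorm v.asIdeal ∈ Q

/-- `σ` is in an inertia group at `v`: there is a maximal ideal `Q` above `v` of the ring of all
algebraic integers with `σ x ≡ x` modulo `Q` for all `x` -/
def IsInert (v : HeightOneSpectrum (𝓞 K)) (σ : GK K) : Prop :=
  ∃ Q : Ideal (𝓞 (AlgebraicClosure K)), Q.IsMaximal ∧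
    Q.comap (algebraMap (𝓞 K) (𝓞 (AlgebraicClosure K))) = v.asIdeal ∧
    ∀ x : 𝓞 (AlgebraicClosure K), σ • x - x ∈ Q

/-- the number of primes `v` of `K` with `N(v) ≤ N` and property `T`, divided by the number of rational
primes up to `N` -/
noncomputable def dens (T : HeightOneSpectrum (𝓞 K) → Prop) (N : ℕ) : ℝ :=
  (Nat.card {v : HeightOneSpectrum (𝓞 K) // Ideal.absNorm v.asIdeal ≤ N ∧ T v} : ℝ) /
    (Nat.primeCounting N : ℝ)

/-- the sum of `f v` over the primes `v` outside `S` with `N(v) ≤ N` -/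
noncomputable def psum (S : Set (HeightOneSpectrum (𝓞 K))) (f : HeightOneSpectrum (𝓞 K) → ℝ) (N : ℕ) :
    ℝ := ∑ᶠ v ∈ {v : HeightOneSpectrum (𝓞 K) | Ideal.absNorm v.asIdeal ≤ N ∧ v ∉ S}, f v

/-- the representation `ρ` is semisimple: every invariant subspace has an invariant complement -/
def Semisimple {G k : Type*} [Group G] [Field k] {n : ℕ} (ρ : G →* GL (Fin n) k) : Prop :=
  ∀ W : Submodule k (Fin n → k),
    (∀ g, ∀ w ∈ W, Matrix.mulVec (ρ g : Matrix (Fin n) (Fin n) k) w ∈ W) →
    ∃ W' : Submodule k (Fin n → k),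
      (∀ g, ∀ w ∈ W', Matrix.mulVec (ρ g : Matrix (Fin n) (Fin n) k) w ∈ W') ∧ IsCompl W W'

/-- the only invariant subspaces are `0` and the whole space -/
def Irred {G k : Type*} [Group G] [Field k] {n : ℕ} (ρ : G →* GL (Fin n) k) : Prop :=
  ∀ W : Submodule k (Fin n → k),
    (∀ g, ∀ w ∈ W, Matrix.mulVec (ρ g : Matrix (Fin n) (Fin n) k) w ∈ W) → W = ⊥ ∨ W = ⊤

/-- `ρ` is unramified at `v`, and the inverses of the Frobenius elements at `v` (the geometric
Frobenius elements) have the characteristic polynomial `Q` -/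
def Attached {k : Type*} [Field k] {n : ℕ} (ρ : GK K →* GL (Fin n) k)
    (v : HeightOneSpectrum (𝓞 K)) (Q : k[X]) : Prop :=
  (∀ ι : GK K, IsInert v ι → ρ ι = 1) ∧
    ∀ σ : GK K, IsFrob v σ → (ρ (σ⁻¹) : Matrix (Fin n) (Fin n) k).charpoly = Q

variable {E : Type} [Field E] [NumberField E]

/-- For a homomorphism `φ` of `𝓞 E` to some field `k` of characteristic `ℓ` there is a semisimple
representation over `k` with open kernel, attached to the reductions of the polynomials `P v` at all
primes `v` which are not in `S` and do not divide `ℓ`. -/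
def ModRep (n : ℕ) (S : Set (HeightOneSpectrum (𝓞 K)))
    (P : HeightOneSpectrum (𝓞 K) → (𝓞 E)[X]) (ℓ : ℕ) : Prop :=
  ∃ (k : Type) (_ : Field k) (_ : CharP k ℓ) (φ : 𝓞 E →+* k) (ρ : GK K →* GL (Fin n) k),
    Semisimple ρ ∧ IsOpen (ρ.ker : Set (GK K)) ∧
      ∀ v, v ∉ S → (ℓ : 𝓞 K) ∉ v.asIdeal → Attached ρ v ((P v).map φ)

/-- The same, and the reductions of the traces take at most `q` values outside a set of primes of lower
density at most `η`. -/
def ModRepVal (n : ℕ) (S : Set (HeightOneSpectrum (𝓞 K)))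
    (P : HeightOneSpectrum (𝓞 K) → (𝓞 E)[X]) (q : ℕ) (η : ℝ) (ℓ : ℕ) : Prop :=
  ∃ (k : Type) (_ : Field k) (_ : CharP k ℓ) (φ : 𝓞 E →+* k) (ρ : GK K →* GL (Fin n) k)
    (Z : Finset k),
    Semisimple ρ ∧ IsOpen (ρ.ker : Set (GK K)) ∧
      (∀ v, v ∉ S → (ℓ : 𝓞 K) ∉ v.asIdeal → Attached ρ v ((P v).map φ)) ∧
      Z.card ≤ q ∧ ∃ᶠ N in atTop, dens (fun v => v ∉ S ∧ φ (-(P v).coeff (n - 1)) ∉ Z) N ≤ η

/-- `ρ` is a semisimple representation over `Ω` with open kernel and finite image of order at most `M`,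
attached to the polynomials `P v` (mapped to `Ω` by `τ`) at all primes `v` outside `S` -/
def ArtinRep (n : ℕ) (S : Set (HeightOneSpectrum (𝓞 K)))
    (P : HeightOneSpectrum (𝓞 K) → (𝓞 E)[X]) (M : ℕ) {Ω : Type*} [Field Ω] (τ : E →+* Ω)
    (ρ : GK K →* GL (Fin n) Ω) : Prop :=
  Semisimple ρ ∧ IsOpen (ρ.ker : Set (GK K)) ∧ Finite ρ.range ∧ Nat.card ρ.range ≤ M ∧
    ∀ v, v ∉ S → Attached ρ v ((P v).map (τ.comp (algebraMap (𝓞 E) E)))

end defs

/-- **Main result.** -/
theorem result (K : Type) [Field K] [NumberField K] (E : Type) [Field E] [NumberField E]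
    (n : ℕ) (hn : 0 < n) (S : Set (HeightOneSpectrum (𝓞 K))) (hS : S.Finite)
    (P : HeightOneSpectrum (𝓞 K) → (𝓞 E)[X]) :
    -- (1) finitely many traces outside a set of density less than `1 / n²`
    (∀ (q : ℕ) (η : ℝ), (n : ℝ) ^ 2 * η < 1 →
      (∀ B : ℕ, ∃ ℓ : ℕ, B < ℓ ∧ ℓ.Prime ∧ ModRepVal n S P q η ℓ) →
      ∀ (Ω : Type) [Field Ω] [IsAlgClosed Ω] (τ : E →+* Ω), ∃ ρ : GK K →* GL (Fin n) Ω,
        ArtinRep n S P ⌊(q : ℝ) ^ (n ^ 2) / (1 - n ^ 2 * η)⌋₊ τ ρ) ∧
    -- (2) bounded mean square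
    ((∃ C : ℝ, ∃ᶠ N in atTop, ∀ s : E →+* ℂ,
        psum S (fun v => ‖s ((P v).coeff (n - 1))‖ ^ 2) N ≤ C * Nat.primeCounting N) →
      (∀ B : ℕ, ∃ ℓ : ℕ, B < ℓ ∧ ℓ.Prime ∧ ModRep n S P ℓ) →
      ∃ M : ℕ, ∀ (Ω : Type) [Field Ω] [IsAlgClosed Ω] (τ : E →+* Ω), ∃ ρ : GK K →* GL (Fin n) Ω,
        ArtinRep n S P M τ ρ) ∧
    -- (3) irreducibility
    (∀ (M : ℕ) (Ω : Type) [Field Ω] [IsAlgClosed Ω] (τ : E →+* Ω) (ρ : GK K →* GL (Fin n) Ω),
      ArtinRep n S P M τ ρ →
      (∃ s : E →+* ℂ, ∃ c : ℝ, c < 2 ∧ ∃ᶠ N in atTop,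
        psum S (fun v => ‖s ((P v).coeff (n - 1))‖ ^ 2) N ≤ c * Nat.primeCounting N) →
      Irred ρ) := by
  refine ⟨?_, ?_, ?_⟩
  · intro q η hη hmod Ω _ _ τ
    exact Pool.Agent.K9h67.DS.deligne_serre hn S hS P q η hη hmod τ
  · rintro ⟨C, hC⟩ hmod
    obtain ⟨Y, hY⟩ := Pool.Agent.K9h67.DS.finite_values S (fun v => -(P v).coeff (n - 1)) C
      (by
        refine hC.mono fun N hN s => ?_
        have e : (fun v => ‖s ((-(P v).coeff (n - 1) : 𝓞 E) : E)‖ ^ 2) =
            fun v => ‖s (((P v).coeff (n - 1) : 𝓞 E) : E)‖ ^ 2 := by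
          funext v
          have e1 : ((-(P v).coeff (n - 1) : 𝓞 E) : E) = -(((P v).coeff (n - 1) : 𝓞 E) : E) := rfl
          rw [e1, map_neg, norm_neg]
        rw [e]
        exact hN s) (1 / (2 * (n : ℝ) ^ 2)) (by positivity)
    refine ⟨_, fun Ω _ _ τ => Pool.Agent.K9h67.DS.deligne_serre hn S hS P Y.card
      (1 / (2 * (n : ℝ) ^ 2)) ?_ ?_ τ⟩
    · have hn' : (0 : ℝ) < n := by exact_mod_cast hn
      field_simp
      norm_num
    · intro B
      obtain ⟨ℓ, hℓ, hℓp, h⟩ := hmod B
      exact ⟨ℓ, hℓ, hℓp, Pool.Agent.K9h67.DS.modRepVal_of S P Y _ hY ℓ h⟩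
  · rintro M Ω _ _ τ ρ hρ ⟨s, c, hc, hs⟩
    have hchar : CharZero Ω := charZero_of_injective_ringHom τ.injective
    exact Pool.Agent.K9h67.DS.irred_of_ms hn S hS P M τ ρ hρ s c hc hs

end Pool.Agent.Results.MP_ef641d_nt.DeligneSerreAnyRank
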