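import Pool.Agent.K9h20.FP.Main

/-!
# Patching Galois representations from finitely many extensions of coprime degrees

The known constructions of the Galois representation `ρ_π` of an automorphic representation `π` of
`GL_n` first construct representations over infinitely many extensions in general position and then
patch them (Blasius–Rogawski, Harris–Taylor, Sorensen, Harris–Lan–Taylor–Thorne).  We prove a patching
theorem for arbitrary, in particular finite, families of extensions, the condition of general position
being replaced by coprimality of the degrees: for instance a quadratic and a cubic extension of `K`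
suffice.

Let `K` be a number field, `S` a finite set of primes, and for every prime `v` outside `S` let `P v` be a
polynomial over a topological field `k` of characteristic zero.  Let `K_i` be a family of finite
extensions of `K`, given by the open subgroups `U i` of the absolute Galois group of `K`, with continuous
semisimple representations `ρ i` of `U i` of dimension `n`, such that at the places of `K_i` of residue
degree one above `v` outside `S` the representation `ρ i` is unramified and geometric Frobenius has
characteristic polynomial `P v`.  Suppose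

* for one member `i₀` of the family, `ρ i₀` is multiplicity free on the absolute Galois group of the
  Galois closure of every composite of `K_{i₀}` with finitely many of the `K_i`;
* for every prime number `q`, some degree `[K_i : K]` is prime to `q`; or `q` does not divide `n`, the
  restrictions of `ρ i₀` above are absolutely irreducible, and the determinants `(-1)^n P_v(0)` come
  from a continuous character of the absolute Galois group of `K` (for an automorphic `π` this is the
  character attached by class field theory to the central character).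

Then there is a continuous semisimple representation of the absolute Galois group of `K` whose
restriction to `K_i` is isomorphic to `ρ i` for every `i`, and which is unramified with geometric
Frobenius polynomial `P v` at every prime `v` outside `S` such that some `K_i` has a place above `v` with
the same completion.

The first condition cannot be dropped: let `M` be an `S₃`-extension of `K`, `ρ₁` the sum of two copies of
the nontrivial character of `Gal(M/L)` for the cubic subfield `L`, `ρ₂` the sum of the two nontrivial
characters of `Gal(M/F)` for the quadratic subfield `F`; their Frobenius polynomials at the places of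
degree one agree, but there is no representation of `Gal(M/K)` with these restrictions.

Method: the pairs `(g, M)` of an element of the Galois group and a matrix inducing the same automorphism
of the representation on the Galois closure form an extension `E` of the Galois group by a torus `T`.
The `ρ i` give sections over the `U i`, any two of which are conjugate under `T` where both are defined.
The corestriction of the resulting crossed homomorphisms gives a crossed homomorphism `F_i : E → T` which
is the power with exponent `[K_i : K]` on `T`; if the degrees are coprime a product of powers of the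
`F_i` is the identity on `T` and its kernel is a section of `E` over the whole Galois group.
-/

set_option autoImplicit false

namespace Pool.Agent.Results.MP_ef641d_nt.FinitePatching

open NumberField IsDedekindDomain Polynomial

/-- the absolute Galois group of `K` with the Krull topology -/
abbrev GK (K : Type) [Field K] : Type := Gal(AlgebraicClosure K/K)

section defs

variable {K : Type} [Field K] [NumberField K]

/-- `Q` is a maximal ideal above `v` of the ring of all algebraic integers -/
def Over (v : HeightOneSpectrum (𝓞 K)) (Q : Ideal (𝓞 (AlgebraicClosure K))) : Prop :=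
  Q.IsMaximal ∧ Q.comap (algebraMap (𝓞 K) (𝓞 (AlgebraicClosure K))) = v.asIdeal

/-- the (arithmetic) Frobenius elements of `Q`: `σ x ≡ x ^ N(v)` modulo `Q` for all `x` -/
def FrobAt (v : HeightOneSpectrum (𝓞 K)) (Q : Ideal (𝓞 (AlgebraicClosure K))) (σ : GK K) : Prop :=
  ∀ x : 𝓞 (AlgebraicClosure K), σ • x - x ^ Ideal.absNorm v.asIdeal ∈ Q

/-- the inertia group of `Q` -/
def InertAt (Q : Ideal (𝓞 (AlgebraicClosure K))) (σ : GK K) : Prop :=
  ∀ x : 𝓞 (AlgebraicClosure K), σ • x - x ∈ Q

/-- The representation `ρ` of `U` is unramified at the places above `v` of residue degree one of the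
fixed field of `U` (those below a `Q` with a Frobenius element in `U`), and the inverses of the Frobenius
elements have characteristic polynomial `F`. -/
def AttachedOn {k : Type*} [Field k] {n : ℕ} (U : Subgroup (GK K)) (ρ : U →* GL (Fin n) k)
    (v : HeightOneSpectrum (𝓞 K)) (F : k[X]) : Prop :=
  ∀ Q : Ideal (𝓞 (AlgebraicClosure K)), Over v Q → (∃ σ ∈ U, FrobAt v Q σ) →
    (∀ (ι : GK K) (h : ι ∈ U), InertAt Q ι → ρ ⟨ι, h⟩ = 1) ∧
    ∀ (σ : GK K) (h : σ⁻¹ ∈ U), FrobAt v Q σ →
      (ρ ⟨σ⁻¹, h⟩ : Matrix (Fin n) (Fin n) k).charpoly = F

/-- The representation `R` of the whole group is unramified at `v`, and the inverses of the Frobenius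
elements at `v` have characteristic polynomial `F`. -/
def Attached {k : Type*} [Field k] {n : ℕ} (R : GK K →* GL (Fin n) k)
    (v : HeightOneSpectrum (𝓞 K)) (F : k[X]) : Prop :=
  ∀ Q : Ideal (𝓞 (AlgebraicClosure K)), Over v Q → (∀ ι : GK K, InertAt Q ι → R ι = 1) ∧
    ∀ σ : GK K, FrobAt v Q σ → (R σ⁻¹ : Matrix (Fin n) (Fin n) k).charpoly = F

/-- the character `χ` takes the value `(-1)^n F(0)` at the inverses of the Frobenius elements at `v` -/
def DetAt {k : Type*} [Field k] (n : ℕ) (χ : GK K →* kˣ) (v : HeightOneSpectrum (𝓞 K)) (F : k[X]) :
    Prop :=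
  ∀ Q : Ideal (𝓞 (AlgebraicClosure K)), Over v Q →
    ∀ σ : GK K, FrobAt v Q σ → (χ σ⁻¹ : k) = (-1) ^ n * F.coeff 0

/-- `U` contains the decomposition group of some `Q` above `v`, in other words the fixed field of `U` has
a place above `v` with the same completion -/
def DecompLe (U : Subgroup (GK K)) (v : HeightOneSpectrum (𝓞 K)) : Prop :=
  ∃ Q : Ideal (𝓞 (AlgebraicClosure K)), Over v Q ∧
    ∀ σ : GK K, (∀ x : 𝓞 (AlgebraicClosure K), x ∈ Q ↔ σ • x ∈ Q) → σ ∈ U

/-- the representation `ρ` is semisimple: every invariant subspace has an invariant complement -/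
def Semisimple {G k : Type*} [Group G] [Field k] {n : ℕ} (ρ : G →* GL (Fin n) k) : Prop :=
  ∀ W : Submodule k (Fin n → k),
    (∀ g, ∀ w ∈ W, Matrix.mulVec (ρ g : Matrix (Fin n) (Fin n) k) w ∈ W) →
    ∃ W' : Submodule k (Fin n → k),
      (∀ g, ∀ w ∈ W', Matrix.mulVec (ρ g : Matrix (Fin n) (Fin n) k) w ∈ W') ∧ IsCompl W W'

/-- The largest normal subgroup contained in `U i₀` and in the `U j` with `j ∈ J`: the absolute Galois
group of the Galois closure over `K` of the composite of the fields `K_{i₀}` and `K_j`, `j ∈ J`. -/
def GalCl {G I : Type*} [Group G] (U : I → Subgroup G) (i₀ : I) (J : Finset I) : Subgroup G :=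
  (U i₀ ⊓ ⨅ j ∈ J, U j).normalCore

/-- the matrix `A` commutes with the values of `ρ` on `N` -/
def Comm {G k : Type*} [Group G] [Field k] {n : ℕ} {U : Subgroup G} (ρ : U →* GL (Fin n) k)
    (N : Subgroup G) (A : Matrix (Fin n) (Fin n) k) : Prop :=
  ∀ (x : G) (h : x ∈ U), x ∈ N → A * ρ ⟨x, h⟩ = ρ ⟨x, h⟩ * A

/-- The matrices commuting with `ρ` on `N` commute with each other: for a semisimple `ρ` this says that
`ρ` is multiplicity free on `N` (over an algebraic closure). -/
def MultFree {G k : Type*} [Group G] [Field k] {n : ℕ} {U : Subgroup G} (ρ : U →* GL (Fin n) k)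
    (N : Subgroup G) : Prop :=
  ∀ A B : Matrix (Fin n) (Fin n) k, Comm ρ N A → Comm ρ N B → A * B = B * A

/-- Only scalar matrices commute with `ρ` on `N`: for a semisimple `ρ` this says that `ρ` is absolutely
irreducible on `N`. -/
def AbsIrr {G k : Type*} [Group G] [Field k] {n : ℕ} {U : Subgroup G} (ρ : U →* GL (Fin n) k)
    (N : Subgroup G) : Prop :=
  ∀ A : Matrix (Fin n) (Fin n) k, Comm ρ N A → ∃ c : k, A = Matrix.scalar (Fin n) c

end defs

/-- **Main result.** -/
theorem result (K : Type) [Field K] [NumberField K] (k : Type) [Field k] [CharZero k]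
    [TopologicalSpace k] [IsTopologicalRing k] [T2Space k] (n : ℕ)
    (S : Set (HeightOneSpectrum (𝓞 K))) (hS : S.Finite) (P : HeightOneSpectrum (𝓞 K) → k[X])
    -- the family of extensions and representations
    (I : Type) (U : I → Subgroup (GK K)) (hU : ∀ i, IsOpen (U i : Set (GK K)))
    (ρ : ∀ i, U i →* GL (Fin n) k) (hρ : ∀ i, Continuous (ρ i)) (hss : ∀ i, Semisimple (ρ i))
    (hat : ∀ i, ∀ v, v ∉ S → AttachedOn (U i) (ρ i) v (P v))
    -- multiplicity free over the Galois closures
    (i₀ : I) (hmf : ∀ J : Finset I, MultFree (ρ i₀) (GalCl U i₀ J))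
    -- the degrees of the extensions
    (hdeg : ∀ q : ℕ, q.Prime → (∃ i, ¬ q ∣ (U i).index) ∨ (¬ q ∣ n ∧
      (∀ J : Finset I, AbsIrr (ρ i₀) (GalCl U i₀ J)) ∧
      ∃ χ : GK K →* kˣ, Continuous χ ∧ ∀ v, v ∉ S → DetAt n χ v (P v))) :
    ∃ R : GK K →* GL (Fin n) k, Continuous R ∧ Semisimple R ∧
      (∀ i, ∃ C : GL (Fin n) k, ∀ σ : U i, C * ρ i σ * C⁻¹ = R σ) ∧
      ∀ v, v ∉ S → (∃ i, DecompLe (U i) v) → Attached R v (P v) := by
  obtain ⟨R, h1, h2, h3, h4⟩ :=
    Pool.Agent.K9h20.FP.patch_inf S hS P U hU ρ hρ hss hat i₀ hmf (by
      intro q hq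
      rcases hdeg q hq with h | ⟨h5, h6, χ, h7, h8⟩
      · exact Or.inl h
      · refine Or.inr ⟨h5, h6, χ, h7, ?_⟩
        rintro v hv σ ⟨Q, hQm, hQv, hQ⟩
        exact h8 v hv Q ⟨hQm, hQv⟩ σ hQ)
  refine ⟨R, h1, h2, h4, ?_⟩
  intro v hv hi Q hQ
  exact ⟨fun ι hι => (h3 v hv hi).1 ι ⟨Q, hQ.1, hQ.2, hι⟩,
    fun σ hσ => (h3 v hv hi).2 σ ⟨Q, hQ.1, hQ.2, hσ⟩⟩

end Pool.Agent.Results.MP_ef641d_nt.FinitePatching
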