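import Pool.Agent.K9h67.DS.One

/-!
# One prime suffices

The method of Deligne and Serre constructs Galois representations of Artin type from representations
modulo `ℓ` for infinitely many primes `ℓ`.  We show that a representation modulo one sufficiently large
prime `ℓ` suffices if the Hecke polynomials satisfy the Ramanujan conjecture at most primes, where
sufficiently large is explicit and depends only on the rank `n`, the degree `d` of the coefficient field
and the density `η < 1 / n²` of the exceptional primes.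

Let `E` be a number field of degree at most `d`, and let `P v` (`v` a prime of the number field `K`
outside a finite set `S`) be monic polynomials over `𝓞 E`.  Suppose that for all `v` outside `S` and
outside a set `T` of lower density at most `η` all conjugates of all roots of `P v` are in the unit disc.
Put `B = ⌊((2 n d)!) ^ (n³) / (1 - n² η)⌋`.

(1) If for one prime `ℓ > B` there is a semisimple representation of `Gal(K̄ / K)` of dimension `n` in
characteristic `ℓ`, unramified at the primes `v ∤ ℓ` outside `S` where geometric Frobenius has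
characteristic polynomial `P v` modulo (a prime above) `ℓ`, then for every embedding of `E` into an
algebraically closed field `Ω` there is a semisimple representation over `Ω` with image of order at most
`B`, unramified at all primes `v ∤ ℓ` outside `S` (also those in `T`), where geometric Frobenius has
characteristic polynomial `P v` for `v` outside `T`.

(2) If `T` is empty and there are such representations for two primes `ℓ ≠ ℓ'` greater than `B`, then
there is a semisimple representation over `Ω` with image of order at most `B`, unramified at all `v`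
outside `S`, where geometric Frobenius has characteristic polynomial `P v`.
-/

set_option autoImplicit false

namespace Pool.Agent.Results.MP_ef641d_nt.OnePrimeSuffices

open NumberField IsDedekindDomain Filter Polynomial

/-- the absolute Galois group of `K` with the Krull topology -/
abbrev GK (K : Type) [Field K] : Type := Gal(AlgebraicClosure K/K)

section defs

variable {K : Type} [Field K] [NumberField K]

/-- `σ` is an (arithmetic) Frobenius element at `v`: there is a maximal ideal `Q` above `v` of the ring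
of all algebraic integers with `σ x ≡ x ^ N(v)` modulo `Q` for all `x` -/
def IsFrob (v : HeightOneSpectrum (𝓞 K)) (σ : GK K) : Prop :=
  ∃ Q : Ideal (𝓞 (AlgebraicClosure K)), Q.IsMaximal ∧
    Q.comap (algebraMap (𝓞 K) (𝓞 (AlgebraicClosure K))) = v.asIdeal ∧
    ∀ x : 𝓞 (AlgebraicClosure K), σ • x - x ^ Ideal.absNorm v.asIdeal ∈ Q

/-- `σ` is in an inertia group at `v`: there is a maximal ideal `Q` above `v` of the ring of all
algebraic integers with `σ x ≡ x` modulo `Q` for all `x` -/
def IsInert (v : HeightOneSpectrum (𝓞 K)) (σ : GK K) : Prop :=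
  ∃ Q : Ideal (𝓞 (AlgebraicClosure K)), Q.IsMaximal ∧
    Q.comap (algebraMap (𝓞 K) (𝓞 (AlgebraicClosure K))) = v.asIdeal ∧
    ∀ x : 𝓞 (AlgebraicClosure K), σ • x - x ∈ Q

/-- the number of primes `v` of `K` with `N(v) ≤ N` and property `T`, divided by the number of rational
primes up to `N` -/
noncomputable def dens (T : HeightOneSpectrum (𝓞 K) → Prop) (N : ℕ) : ℝ :=
  (Nat.card {v : HeightOneSpectrum (𝓞 K) // Ideal.absNorm v.asIdeal ≤ N ∧ T v} : ℝ) /
    (Nat.primeCounting N : ℝ)

/-- the representation `ρ` is semisimple: every invariant subspace has an invariant complement -/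
def Semisimple {G k : Type*} [Group G] [Field k] {n : ℕ} (ρ : G →* GL (Fin n) k) : Prop :=
  ∀ W : Submodule k (Fin n → k),
    (∀ g, ∀ w ∈ W, Matrix.mulVec (ρ g : Matrix (Fin n) (Fin n) k) w ∈ W) →
    ∃ W' : Submodule k (Fin n → k),
      (∀ g, ∀ w ∈ W', Matrix.mulVec (ρ g : Matrix (Fin n) (Fin n) k) w ∈ W') ∧ IsCompl W W'

/-- `ρ` is unramified at `v`, and the inverses of the Frobenius elements at `v` (the geometric
Frobenius elements) have the characteristic polynomial `Q` -/
def Attached {k : Type*} [Field k] {n : ℕ} (ρ : GK K →* GL (Fin n) k)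
    (v : HeightOneSpectrum (𝓞 K)) (Q : k[X]) : Prop :=
  (∀ ι : GK K, IsInert v ι → ρ ι = 1) ∧
    ∀ σ : GK K, IsFrob v σ → (ρ (σ⁻¹) : Matrix (Fin n) (Fin n) k).charpoly = Q

variable {E : Type} [Field E] [NumberField E]

/-- all complex conjugates of all roots of `Q` are in the unit disc -/
def Unitary (Q : (𝓞 E)[X]) : Prop :=
  ∀ (s : E →+* ℂ) (z : ℂ), (Q.map (s.comp (algebraMap (𝓞 E) E))).IsRoot z → ‖z‖ ≤ 1

/-- For a homomorphism `φ` of `𝓞 E` to some field `k` of characteristic `ℓ` there is a semisimple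
representation over `k` with open kernel, attached to the reductions of the polynomials `P v` at all
primes `v` which are not in `S` and do not divide `ℓ`. -/
def ModRep (n : ℕ) (S : Set (HeightOneSpectrum (𝓞 K)))
    (P : HeightOneSpectrum (𝓞 K) → (𝓞 E)[X]) (ℓ : ℕ) : Prop :=
  ∃ (k : Type) (_ : Field k) (_ : CharP k ℓ) (φ : 𝓞 E →+* k) (ρ : GK K →* GL (Fin n) k),
    Semisimple ρ ∧ IsOpen (ρ.ker : Set (GK K)) ∧
      ∀ v, v ∉ S → (ℓ : 𝓞 K) ∉ v.asIdeal → Attached ρ v ((P v).map φ)

/-- `ρ` is a semisimple representation over `Ω` with open kernel and finite image of order at most `M`,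
unramified at all primes which are not in `S` and do not divide `ℓ`, and attached to the polynomials
`P v` (mapped to `Ω` by `τ`) at those of these primes which are not in `T` -/
def ArtinAway (n : ℕ) (S T : Set (HeightOneSpectrum (𝓞 K)))
    (P : HeightOneSpectrum (𝓞 K) → (𝓞 E)[X]) (M ℓ : ℕ) {Ω : Type*} [Field Ω] (τ : E →+* Ω)
    (ρ : GK K →* GL (Fin n) Ω) : Prop :=
  Semisimple ρ ∧ IsOpen (ρ.ker : Set (GK K)) ∧ Finite ρ.range ∧ Nat.card ρ.range ≤ M ∧
    (∀ v, v ∉ S → (ℓ : 𝓞 K) ∉ v.asIdeal → ∀ ι : GK K, IsInert v ι → ρ ι = 1) ∧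
    ∀ v, v ∉ S → v ∉ T → (ℓ : 𝓞 K) ∉ v.asIdeal →
      Attached ρ v ((P v).map (τ.comp (algebraMap (𝓞 E) E)))

/-- `ρ` is a semisimple representation over `Ω` with open kernel and finite image of order at most `M`,
attached to the polynomials `P v` (mapped to `Ω` by `τ`) at all primes `v` outside `S` -/
def ArtinRep (n : ℕ) (S : Set (HeightOneSpectrum (𝓞 K)))
    (P : HeightOneSpectrum (𝓞 K) → (𝓞 E)[X]) (M : ℕ) {Ω : Type*} [Field Ω] (τ : E →+* Ω)
    (ρ : GK K →* GL (Fin n) Ω) : Prop :=
  Semisimple ρ ∧ IsOpen (ρ.ker : Set (GK K)) ∧ Finite ρ.range ∧ Nat.card ρ.range ≤ M ∧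
    ∀ v, v ∉ S → Attached ρ v ((P v).map (τ.comp (algebraMap (𝓞 E) E)))

/-- the bound `⌊((2 n d)!) ^ (n³) / (1 - n² η)⌋` -/
noncomputable def bd (n d : ℕ) (η : ℝ) : ℕ :=
  ⌊((((2 * (n * d)).factorial : ℕ) : ℝ) ^ n) ^ (n ^ 2) / (1 - n ^ 2 * η)⌋₊

end defs

/-- **Main result.** -/
theorem result (K : Type) [Field K] [NumberField K] (E : Type) [Field E] [NumberField E]
    (n d : ℕ) (hn : 0 < n) (hd : Module.finrank ℚ E ≤ d) (η : ℝ) (hη : (n : ℝ) ^ 2 * η < 1)
    (S T : Set (HeightOneSpectrum (𝓞 K))) (hS : S.Finite)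
    (hT : ∃ᶠ N in atTop, dens (fun v => v ∉ S ∧ v ∈ T) N ≤ η)
    (P : HeightOneSpectrum (𝓞 K) → (𝓞 E)[X]) (hmon : ∀ v, v ∉ S → (P v).Monic)
    (hU : ∀ v, v ∉ S → v ∉ T → Unitary (P v)) :
    -- (1) one prime
    (∀ ℓ : ℕ, ℓ.Prime → bd n d η < ℓ → ModRep n S P ℓ →
      ∀ (Ω : Type) [Field Ω] [IsAlgClosed Ω] (τ : E →+* Ω), ∃ ρ : GK K →* GL (Fin n) Ω,
        ArtinAway n S T P (bd n d η) ℓ τ ρ) ∧
    -- (2) two primes
    (T = ∅ → ∀ ℓ ℓ' : ℕ, ℓ.Prime → ℓ'.Prime → ℓ ≠ ℓ' → bd n d η < ℓ → bd n d η < ℓ' →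
      ModRep n S P ℓ → ModRep n S P ℓ' →
      ∀ (Ω : Type) [Field Ω] [IsAlgClosed Ω] (τ : E →+* Ω), ∃ ρ : GK K →* GL (Fin n) Ω,
        ArtinRep n S P (bd n d η) τ ρ) := by
  refine ⟨?_, ?_⟩
  · intro ℓ hℓ hM hmod Ω _ _ τ
    exact Pool.Agent.K9h67.DS.one_prime_unitary hn d hd S T hS P hmon hU η hη hT ℓ hℓ hM hmod τ
  · rintro rfl ℓ ℓ' hℓ hℓ' hne hM hM' hmod hmod' Ω _ _ τ
    have hchar : CharZero Ω := charZero_of_injective_ringHom τ.injective
    obtain ⟨ρ, hρ⟩ := Pool.Agent.K9h67.DS.one_prime_unitary hn d hd S ∅ hS P hmon hU η hη hT ℓ hℓ hM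
      hmod τ
    obtain ⟨ρ', hρ'⟩ := Pool.Agent.K9h67.DS.one_prime_unitary hn d hd S ∅ hS P hmon hU η hη hT ℓ' hℓ'
      hM' hmod' τ
    exact ⟨ρ, Pool.Agent.K9h67.DS.two_primes S hS P _ hℓ hℓ' hne τ ρ ρ' hρ hρ'⟩

end Pool.Agent.Results.MP_ef641d_nt.OnePrimeSuffices
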