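import Pool.Agent.K9h40.TT.Main3
import Pool.Agent.K9h40.GR.PW

/-!
# Galois representations for `π` from three twists `π ⊞ π^∨ |·|^N`, one prime at a time

Galois representations `ρ_π` for regular algebraic `π` which are not self-dual are constructed (by Harris, Lan,
Taylor and Thorne, and by Scholze) from representations `R_N` with the Satake parameters of the isobaric sums
`π ⊞ π^∨ |·|^N`, for infinitely many integers `N`, and the `R_N` from congruences modulo all powers of `ℓ` which
hold at all unramified primes simultaneously. We show that THREE integers `N` suffice, if they are not in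
arithmetic progression (so any FOUR suffice), and that for each twist it is enough to have congruences at ONE
unramified prime at a time, apart from the traces at a FINITE set `T` of primes, which is given in advance.

Let `S` be a finite set of prime numbers, `d` and `q` natural numbers. There is a finite set `T` of primes outside
`S` with the following property. Let `O` be a complete discrete valuation ring of characteristic zero with at
most `q` elements in its residue field, `𝔪` its maximal ideal and `χ : G_ℚ → Oˣ` a continuous character,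
unramified outside `S`, such that `χ(Frob_v)` has infinite order for all `v ∉ S` (for example the `ℓ`-adic
cyclotomic character, if `ℓ ∈ S`). Let `P_v` and `Q_v`, for `v ∉ S`, be monic polynomials over `O` of
degrees `n` and `m` with `n + m = d` (for example the characteristic polynomials of the Satake parameters of an
algebraic cuspidal automorphic representation `π` and of its dual), and let `Q_v^(N)` be the polynomial whose
roots are those of `Q_v` multiplied by `χ(Frob_v) ^ N`. Let `𝒩` be a finite set of integers and suppose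

(a) for ONE prime `v ∉ S` no quotient of two nonzero zeros of `P_v`, or of `Q_v`, is a power
`χ(Frob_v) ^ k` with `k ≠ 0` (this is known for all `v ∉ S`, if `π` is cuspidal, by the bounds of Jacquet and
Shalika for the Satake parameters), and `𝒩` contains three integers which are not in arithmetic progression
(any set of four integers does); or

(b) `𝒩` has at least `d + 2` elements (and there is no condition on the `P_v`, `Q_v`).

Then

(1) there are continuous representations `G_ℚ → GL_n(O)` and `G_ℚ → GL_m(O)`, unramified outside `S`, such that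
`P_v` and `Q_v` are the characteristic polynomials of `Frob_v` for all `v ∉ S`, or

(2) there are one integer `N ∈ 𝒩`, one prime `v ∉ S` and one `k` such that there is no representation of `G_ℚ` of
degree `d` over `O / 𝔪 ^ k`, with open kernel and unramified outside `S`, with the traces belonging to
`P_w Q_w^(N)` at the primes `w ∈ T` and the characteristic polynomial `P_v Q_v^(N)` at `v`.

Proof. If (2) does not hold, then by compactness and the argument of Faltings and Serre there is for each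
`N ∈ 𝒩` a continuous `R_N` with the characteristic polynomials `P_v Q_v^(N)` for all `v ∉ S`. Their traces
satisfy linear relations with three terms on all of `G_ℚ` (Chebotarev), hence so do the multisets of the
Jordan–Hölder factors of the `R_N` (linear independence of characters). The multiplicities of the twists of one
irreducible representation give functions `r_N = a + b(· - N)` on the integers, and one has to show `a, b ≥ 0`.
In (a) the supports of the `r_N` have at most two points `u`, `w + N`, where `u` and `w` do not depend on `N`: look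
at one eigenvalue of `Frob_v`. In (b) one uses that the supports of the `r_N` have at most `d` points.
-/

set_option autoImplicit false

namespace Pool.Agent.Results.MP_ef641d_nt.ThreeTwists

open Pool.Agent.Y800 Pool.Agent.K9h40 Pool.Agent.K9h40.GR IsLocalRing Polynomial

/-- The character `χ` is continuous and unramified outside `S`, its value at all geometric Frobenius elements
above a prime `v ∉ S` is `c v`, and `c v` has infinite order. -/
def IsTwist {O : Type} [CommRing O] [IsLocalRing O] (S : Finset ℕ) (χ : GQ →* Oˣ) (c : ℕ → Oˣ) : Prop :=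
  (∀ k : ℕ, IsOpen {g : GQ | (χ g : O) - 1 ∈ maximalIdeal O ^ k}) ∧ Unr S χ ∧
    ∀ v : ℕ, v.Prime → v ∉ S → (∀ k : ℤ, c v ^ k = 1 → k = 0) ∧
      ∀ P : Ideal ZBar, P.IsMaximal → (v : ZBar) ∈ P → ∀ σ : GQ, IsGeomFrob v P σ → χ σ = c v

/-- The polynomials `P v`, for primes `v ∉ S`, are monic of degree `n`. -/
def IsFamily {O : Type} [CommRing O] (S : Finset ℕ) (n : ℕ) (P : ℕ → O[X]) : Prop :=
  ∀ v : ℕ, v.Prime → v ∉ S → (P v).Monic ∧ (P v).natDegree = n

/-- The product of `P v` and of the polynomial whose roots are the roots of `Q v` multiplied by `c v ^ N`. -/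
noncomputable def twistedSum {O : Type} [CommRing O] (P Q : ℕ → O[X]) (c : ℕ → Oˣ) (N : ℤ) (v : ℕ) : O[X] :=
  P v * (Q v).scaleRoots ((c v ^ N : Oˣ) : O)

/-- In an algebraic closure of the field of fractions of `O` no quotient of two nonzero zeros of `P` is a power
`c ^ k` with `k ≠ 0`. -/
def Separated {O : Type} [CommRing O] [IsDomain O] (P : O[X]) (c : Oˣ) : Prop :=
  ∀ (x : AlgebraicClosure (FractionRing O)) (k : ℤ), x ≠ 0 → aeval x P = 0 →
    aeval (algebraMap O (AlgebraicClosure (FractionRing O)) ((c ^ k : Oˣ) : O) * x) P = 0 → k = 0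

/-- Either at some prime `v ∉ S` both `P v` and `Q v` are separated, and `𝒩` contains three integers which
are not in arithmetic progression, or `𝒩` has at least `d + 2` elements. -/
def Enough {O : Type} [CommRing O] [IsDomain O] (S : Finset ℕ) (d : ℕ) (P Q : ℕ → O[X]) (c : ℕ → Oˣ)
    (𝒩 : Finset ℤ) : Prop :=
  ((∃ v : ℕ, v.Prime ∧ v ∉ S ∧ Separated (P v) (c v) ∧ Separated (Q v) (c v)) ∧
    ∃ N₁ ∈ 𝒩, ∃ N₂ ∈ 𝒩, ∃ N₃ ∈ 𝒩, N₁ < N₂ ∧ N₂ < N₃ ∧ N₁ + N₃ ≠ 2 * N₂) ∨
  d + 2 ≤ 𝒩.card

/-- There is a continuous representation of degree `n` over `O`, unramified outside `S`, with the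
characteristic polynomials `P v` at the Frobenius elements of all primes `v ∉ S`. -/
def HasRep {O : Type} [CommRing O] [IsLocalRing O] (S : Finset ℕ) (n : ℕ) (P : ℕ → O[X]) : Prop :=
  ∃ ρ : GQ →* GL (Fin n) O, Cont ρ ∧ Unr S ρ ∧ ∀ v : ℕ, v.Prime → v ∉ S → FrobPoly ρ v (P v)

/-- There are one prime `v ∉ S` and one `k` such that no representation of `G_ℚ` of degree `n` over `O / 𝔪 ^ k`
with open kernel, unramified outside `S`, has at the primes `w ∈ T` the traces belonging to `P w` (minus the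
coefficients of `X ^ (n - 1)`) and at `v` the characteristic polynomial `P v`, modulo `𝔪 ^ k`. -/
def Obstructed {O : Type} [CommRing O] [IsLocalRing O] (S T : Finset ℕ) (n : ℕ) (P : ℕ → O[X]) : Prop :=
  ∃ v : ℕ, v.Prime ∧ v ∉ S ∧ ∃ k : ℕ, ¬ ∃ ρ' : GQ →* GL (Fin n) (O ⧸ maximalIdeal O ^ k),
    IsOpen (ρ'.ker : Set GQ) ∧ Unr S ρ' ∧
    (∀ w ∈ T, FrobTrace ρ' w (Ideal.Quotient.mk (maximalIdeal O ^ k) (- (P w).coeff (n - 1)))) ∧
    FrobPoly ρ' v ((P v).map (Ideal.Quotient.mk (maximalIdeal O ^ k)))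

/-- **Three twists, one prime at a time.** -/
theorem result (S : Finset ℕ) (d q : ℕ) :
    ∃ T : Finset ℕ, (∀ p ∈ T, p.Prime ∧ p ∉ S) ∧
      ∀ (O : Type) [CommRing O] [IsDomain O] [IsDiscreteValuationRing O] [CharZero O]
        [IsAdicComplete (maximalIdeal O) O] [Finite (ResidueField O)], Nat.card (ResidueField O) ≤ q →
      ∀ (χ : GQ →* Oˣ) (c : ℕ → Oˣ), IsTwist S χ c →
      ∀ (n m : ℕ) (P Q : ℕ → O[X]), n + m = d → IsFamily S n P → IsFamily S m Q →
      ∀ 𝒩 : Finset ℤ, Enough S d P Q c 𝒩 →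
        (HasRep S n P ∧ HasRep S m Q) ∨ ∃ N ∈ 𝒩, Obstructed S T d (twistedSum P Q c N) := by
  classical
  obtain ⟨T, hT, hmain⟩ := PW.dichotomy S d q
  refine ⟨T, hT, ?_⟩
  intro O _ _ _ _ _ _ hq χ c hχ n m P Q hnm hP hQ 𝒩 h𝒩
  by_cases hobs : ∃ N ∈ 𝒩, Obstructed S T d (twistedSum P Q c N)
  · exact Or.inr hobs
  left
  push Not at hobs
  have hatt : ∀ N ∈ 𝒩, ∃ ρ : GQ →* GL (Fin d) O, Cont ρ ∧ Unr S ρ ∧
      ∀ v : ℕ, v.Prime → v ∉ S → FrobPoly ρ v (twistedSum P Q c N v) := by
    intro N hN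
    rcases hmain O hq (twistedSum P Q c N) with h | h
    · obtain ⟨ρ, h1, h2, h3, _⟩ := h
      exact ⟨ρ, h1, h2, h3⟩
    · exfalso
      apply hobs N hN
      obtain ⟨v, hv, hvS, k, hk⟩ := h
      refine ⟨v, hv, hvS, k, ?_⟩
      rintro ⟨ρ', h1, h2, h3, h4⟩
      exact hk ρ' ⟨h1, h2, h3⟩ h4
  choose R₀ hR1 hR2 hR3 using hatt
  let R : ℤ → (GQ →* GL (Fin d) O) := fun N => if h : N ∈ 𝒩 then R₀ N h else 1
  have hR : ∀ N (h : N ∈ 𝒩), R N = R₀ N h := fun N h => dif_pos h
  -- characteristic polynomials at Frobenius elements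
  have hchar : ∀ N ∈ 𝒩, ∀ v σ, TW.FrobAt S v σ → (R N σ : Matrix (Fin d) (Fin d) O).charpoly =
      P v * (Q v).scaleRoots ((χ σ ^ N : Oˣ) : O) := by
    rintro N hN v σ ⟨hv, hvS, P', hP', hvP', hσ⟩
    rw [hR N hN, (hχ.2.2 v hv hvS).2 P' hP' hvP' σ hσ]
    exact hR3 N hN v hv hvS P' hP' hvP' σ hσ
  have htw : TW.IsTwist S χ := by
    refine ⟨hχ.1, hχ.2.1, ?_⟩
    rintro v σ ⟨hv, hvS, P', hP', hvP', hσ⟩ k hk
    rw [(hχ.2.2 v hv hvS).2 P' hP' hvP' σ hσ] at hk
    exact (hχ.2.2 v hv hvS).1 k hk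
  have htr : TW.TracesSplit S χ 𝒩 R (fun v => algebraMap O (FractionRing O) (-(P v).nextCoeff))
      (fun v => algebraMap O (FractionRing O) (-(Q v).nextCoeff)) := by
    intro N hN
    refine ⟨by rw [hR N hN]; exact hR1 N hN, by rw [hR N hN]; exact hR2 N hN, ?_⟩
    intro v σ hσ
    have hPm := (hP v hσ.1 hσ.2.1).1
    have hQm := (hQ v hσ.1 hσ.2.1).1
    rw [Matrix.trace_eq_neg_charpoly_nextCoeff, hchar N hN v σ hσ,
      hPm.nextCoeff_mul ((monic_scaleRoots_iff _).2 hQm), TW.nextCoeff_scale, ← map_mul, ← map_add]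
    congr 1
    ring
  obtain ⟨a, b, A, B, hA, hB, hAB⟩ : ∃ (a b : ℕ) (A : GQ →* GL (Fin a) O) (B : GQ →* GL (Fin b) O),
      (Cont A ∧ Unr S A) ∧ (Cont B ∧ Unr S B) ∧
      TW.AtFrob S χ 𝒩 R (fun v => algebraMap O (FractionRing O) (-(P v).nextCoeff))
        (fun v => algebraMap O (FractionRing O) (-(Q v).nextCoeff)) A B := by
    rcases h𝒩 with ⟨⟨v₀, hv₀, hv₀S, hsP, hsQ⟩, N₁, h₁, N₂, h₂, N₃, h₃, h12, h23, hap⟩ | h𝒩
    · obtain ⟨P₀, σ₀, hP₀, hvP₀, hσ₀⟩ := exists_geom hv₀
      have hfr : TW.FrobAt S v₀ σ₀ := ⟨hv₀, hv₀S, P₀, hP₀, hvP₀, hσ₀⟩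
      have hval : χ σ₀ = c v₀ := (hχ.2.2 v₀ hv₀ hv₀S).2 P₀ hP₀ hvP₀ σ₀ hσ₀
      obtain ⟨a, b, A, B, _, hA, hB, _, hAB⟩ := TT.twists3 S χ htw d 𝒩 h₁ h₂ h₃ h12 h23 hap R _ _ htr v₀ σ₀
        hfr (P v₀) (Q v₀) (by rw [hval]; exact hsP) (by rw [hval]; exact hsQ)
        (fun N hN => hchar N hN v₀ σ₀ hfr)
      exact ⟨a, b, A, B, hA, hB, hAB⟩
    · obtain ⟨a, b, A, B, _, hA, hB, _, hAB⟩ := TW.twists S χ htw d 𝒩 h𝒩 R _ _ htr
      exact ⟨a, b, A, B, hA, hB, hAB⟩
  have hkey : ∀ v σ, TW.FrobAt S v σ → (A σ : Matrix (Fin a) (Fin a) O).charpoly = P v ∧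
      (B σ : Matrix (Fin b) (Fin b) O).charpoly = Q v := by
    intro v σ hσ
    exact (hAB v σ hσ).2.2 (P v) (Q v) (hP v hσ.1 hσ.2.1).1 (hQ v hσ.1 hσ.2.1).1
      (fun N hN => hchar N hN v σ hσ)
  -- degrees
  obtain ⟨v₀, hv₀, hv₀S⟩ : ∃ v : ℕ, v.Prime ∧ v ∉ S := by
    obtain ⟨v, hv1, hv2⟩ := Nat.exists_infinite_primes (S.sup id + 1)
    refine ⟨v, hv2, fun hvS => ?_⟩
    have := Finset.le_sup (f := id) hvS
    simp only [id] at this
    omega
  obtain ⟨P₀, σ₀, hP₀, hvP₀, hσ₀⟩ := exists_geom hv₀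
  have hfr : TW.FrobAt S v₀ σ₀ := ⟨hv₀, hv₀S, P₀, hP₀, hvP₀, hσ₀⟩
  have han : a = n := by
    have h1 := congrArg natDegree (hkey v₀ σ₀ hfr).1
    rw [Matrix.charpoly_natDegree_eq_dim, Fintype.card_fin, (hP v₀ hv₀ hv₀S).2] at h1
    exact h1
  have hbm : b = m := by
    have h1 := congrArg natDegree (hkey v₀ σ₀ hfr).2
    rw [Matrix.charpoly_natDegree_eq_dim, Fintype.card_fin, (hQ v₀ hv₀ hv₀S).2] at h1
    exact h1
  subst han
  subst hbm
  exact ⟨⟨A, hA.1, hA.2, fun v hv hvS P' hP' hvP' σ hσ => (hkey v σ ⟨hv, hvS, P', hP', hvP', hσ⟩).1⟩,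
    ⟨B, hB.1, hB.2, fun v hv hvS P' hP' hvP' σ hσ => (hkey v σ ⟨hv, hvS, P', hP', hvP', hσ⟩).2⟩⟩

end Pool.Agent.Results.MP_ef641d_nt.ThreeTwists
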